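import Pool.Agent.Helper83.EIN2.Goals

/-!
# Packet PR of project EIN2 (MP_06d934_gt)
-/

set_option autoImplicit false

namespace Pool.Agent.Helper85.EIN2

open Pool.Agent.Helper83.EIN Pool.Agent.Helper83.EIN2

theorem pr : Pool.Agent.Helper83.EIN2.PR := by
  intro t ξ y y' A A' τ σ ht hξ hy hy' hs
  have hu : 0 < t * ξ := mul_pos ht hξ
  have ht2 : t ^ 2 ≠ 0 := by positivity
  constructor
  · rintro ⟨h1, h2, h3⟩
    unfold cs at h1 h2 h3
    rw [div_eq_iff (by positivity)] at h1 h2 h3
    have e1 : y' = t * ξ * A + y * (1 - t ^ 2 * τ) := by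
      have : 2 * y' * (y' - (t * ξ * A + y * (1 - t ^ 2 * τ))) = 0 := by
        linear_combination h1 + h3
      have h2y : 2 * y' ≠ 0 := by positivity
      have := (mul_eq_zero.1 this).resolve_left h2y
      linarith
    have e2 : y = t * ξ * A' + y' * (1 - t ^ 2 * τ) := by
      have : 2 * y * (y - (t * ξ * A' + y' * (1 - t ^ 2 * τ))) = 0 := by
        linear_combination h2 + h3
      have h2y : 2 * y ≠ 0 := by positivity
      have := (mul_eq_zero.1 this).resolve_left h2y
      linarith
    refine ⟨?_, ?_, ?_⟩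
    · linear_combination e1
    · have : t ^ 2 * (ξ ^ 2 * (1 - A ^ 2) - y * τ * (y + y' - t * ξ * A)) = 0 := by
        have e1' : t * ξ * A = y' - y * (1 - t ^ 2 * τ) := by linarith
        linear_combination (-(t * ξ * A) - (y' - y * (1 - t ^ 2 * τ)) + y * (t ^ 2 * τ)) * e1' - h3
      exact (mul_eq_zero.1 this).resolve_left ht2
    · have : t ^ 2 * (ξ * σ - τ * (y + y')) = 0 := by
        linear_combination -(t * ξ) * hs - e1 - e2
      exact (mul_eq_zero.1 this).resolve_left ht2
  · rintro ⟨g1, g2, g3⟩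
    have e1 : y' = t * ξ * A + y * (1 - t ^ 2 * τ) := by linear_combination g1
    have e2 : y = t * ξ * A' + y' * (1 - t ^ 2 * τ) := by
      linear_combination -(t ^ 2) * g3 - (t * ξ) * hs - e1
    have e3 : (t * ξ) ^ 2 = y ^ 2 + y' ^ 2 - 2 * (1 - t ^ 2 * τ) * y * y' := by
      have e1' : t * ξ * A = y' - y * (1 - t ^ 2 * τ) := by linarith
      linear_combination t ^ 2 * g2 +
        (t * ξ * A + (y' - y * (1 - t ^ 2 * τ)) - y * (t ^ 2 * τ)) * e1'
    have e4 : t * ξ = y * A' + y' * A := by
      have : t * ξ * (t * ξ - (y * A' + y' * A)) = 0 := by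
        linear_combination e3 + y * e2 + y' * e1
      have := (mul_eq_zero.1 this).resolve_left hu.ne'
      linarith
    refine ⟨?_, ?_, ?_⟩
    · exact cs_of_proj (p := 1 - t ^ 2 * τ) (q := A') hu hy' (by linarith) (by linarith) (by linarith)
    · exact cs_of_proj (p := 1 - t ^ 2 * τ) (q := A) hu hy (by linarith) (by linarith) (by linarith)
    · exact cs_of_proj (p := A) (q := A') hy hy' (by linarith) (by linarith) (by linarith)

end Pool.Agent.Helper85.EIN2
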